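import Pool.Agent.PDX.Stmts

/-!
# PDX, row DEC: labels which decide the sign of `a x + b y`
-/

set_option autoImplicit false

namespace Pool.Agent.PDX.H28

open Finset

theorem lt_of_digits {r c h : ℕ} (h1 : r / 2 ^ (h + 1) = c / 2 ^ (h + 1))
    (h2 : (r / 2 ^ h) % 2 = 0) (h3 : (c / 2 ^ h) % 2 = 1) : r < c := by
  have hdd : ∀ n : ℕ, n / 2 ^ (h + 1) = n / 2 ^ h / 2 := by
    intro n
    rw [Nat.div_div_eq_div_mul, pow_succ]
  rw [hdd, hdd] at h1
  have hlt : r / 2 ^ h < c / 2 ^ h := by omega
  by_contra hn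
  have := Nat.div_le_div_right (c := 2 ^ h) (not_lt.mp hn)
  omega

theorem dec (hLEV : LevStmt) : DecStmt := by
  intro M X Y _ hX a b
  classical
  set r : X → ℕ := fun x => (univ.filter (fun x' => a x' < a x)).card with hr
  set c : Y → ℕ := fun y => (univ.filter (fun x' => a x' + b y < 0)).card with hc
  have hrlt : ∀ x, r x < 2 ^ (M + 1) := by
    intro x
    have h1 : r x ≤ Fintype.card X := by
      rw [hr]; exact (card_le_card (filter_subset _ _)).trans_eq card_univ
    have h2 : 2 ^ (M + 1) = 2 ^ M * 2 := pow_succ _ _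
    have h3 : 0 < 2 ^ M := by positivity
    omega
  have hclt : ∀ y, c y < 2 ^ (M + 1) := by
    intro y
    have h1 : c y ≤ Fintype.card X := by
      rw [hc]; exact (card_le_card (filter_subset _ _)).trans_eq card_univ
    have h2 : 2 ^ (M + 1) = 2 ^ M * 2 := pow_succ _ _
    have h3 : 0 < 2 ^ M := by positivity
    omega
  have hpos : ∀ x y, 0 ≤ a x + b y → c y ≤ r x := by
    intro x y h
    refine card_le_card ?_
    intro x' hx'
    rw [mem_filter] at hx' ⊢
    exact ⟨mem_univ _, by linarith [hx'.2]⟩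
  have hneg : ∀ x y, a x + b y < 0 → r x < c y := by
    intro x y h
    refine card_lt_card ?_
    refine (ssubset_iff_of_subset ?_).mpr ⟨x, ?_, ?_⟩
    · intro x' hx'
      rw [mem_filter] at hx' ⊢
      exact ⟨mem_univ _, by linarith [hx'.2]⟩
    · rw [mem_filter]; exact ⟨mem_univ _, h⟩
    · rw [mem_filter]; exact fun h' => lt_irrefl _ h'.2
  have hiff : ∀ x y, 0 ≤ a x + b y ↔ c y ≤ r x := by
    intro x y
    constructor
    · exact hpos x y
    · intro h
      by_contra hn
      exact absurd (hneg x y (not_le.mp hn)) (not_lt.mpr h)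
  refine ⟨fun i x => if (i : ℕ) = 0 then r x else
      if (i : ℕ) ≤ M + 1 then
        (if (r x / 2 ^ ((i : ℕ) - 1)) % 2 = 0 then 2 * (r x / 2 ^ ((i : ℕ) - 1 + 1)) else 1)
      else
        (if (r x / 2 ^ ((i : ℕ) - (M + 2))) % 2 = 1 then
          2 * (r x / 2 ^ ((i : ℕ) - (M + 2) + 1)) else 1),
    fun i y => if (i : ℕ) = 0 then c y else
      if (i : ℕ) ≤ M + 1 then
        (if (c y / 2 ^ ((i : ℕ) - 1)) % 2 = 1 then 2 * (c y / 2 ^ ((i : ℕ) - 1 + 1)) else 3)
      else
        (if (c y / 2 ^ ((i : ℕ) - (M + 2))) % 2 = 0 then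
          2 * (c y / 2 ^ ((i : ℕ) - (M + 2) + 1)) else 3), ?_, ?_⟩
  · intro x y
    rcases lt_trichotomy (r x) (c y) with h | h | h
    · obtain ⟨k, hk, h3, h4, h5⟩ := hLEV M (r x) (c y) (hrlt x) (hclt y) h
      refine ⟨⟨1 + k, by omega⟩, ?_⟩
      have e1 : ¬ (1 + k = 0) := by omega
      have e2 : 1 + k ≤ M + 1 := by omega
      have e3 : 1 + k - 1 = k := by omega
      simp only [e1, e2, e3, h4, h5, h3, if_true, if_false]
    · exact ⟨⟨0, by omega⟩, by simp [h]⟩
    · obtain ⟨k, hk, h3, h4, h5⟩ := hLEV M (c y) (r x) (hclt y) (hrlt x) h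
      refine ⟨⟨M + 2 + k, by omega⟩, ?_⟩
      have e1 : ¬ (M + 2 + k = 0) := by omega
      have e2 : ¬ (M + 2 + k ≤ M + 1) := by omega
      have e3 : M + 2 + k - (M + 2) = k := by omega
      simp only [e1, e2, e3, h4, h5, h3, if_true, if_false]
  · intro i x y x' y' h h' _
    have main : ∀ x y, (if (i : ℕ) = 0 then r x else
      if (i : ℕ) ≤ M + 1 then
        (if (r x / 2 ^ ((i : ℕ) - 1)) % 2 = 0 then 2 * (r x / 2 ^ ((i : ℕ) - 1 + 1)) else 1)
      else
        (if (r x / 2 ^ ((i : ℕ) - (M + 2))) % 2 = 1 then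
          2 * (r x / 2 ^ ((i : ℕ) - (M + 2) + 1)) else 1)) =
      (if (i : ℕ) = 0 then c y else
      if (i : ℕ) ≤ M + 1 then
        (if (c y / 2 ^ ((i : ℕ) - 1)) % 2 = 1 then 2 * (c y / 2 ^ ((i : ℕ) - 1 + 1)) else 3)
      else
        (if (c y / 2 ^ ((i : ℕ) - (M + 2))) % 2 = 0 then
          2 * (c y / 2 ^ ((i : ℕ) - (M + 2) + 1)) else 3)) →
      (0 ≤ a x + b y ↔ ¬ ((i : ℕ) ≠ 0 ∧ (i : ℕ) ≤ M + 1)) := by
      intro x y hxy
      rw [hiff]
      by_cases h0 : (i : ℕ) = 0
      · rw [if_pos h0, if_pos h0] at hxy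
        constructor
        · intro _ hh
          exact hh.1 h0
        · intro _
          exact hxy.ge
      · rw [if_neg h0, if_neg h0] at hxy
        by_cases h1 : (i : ℕ) ≤ M + 1
        · rw [if_pos h1, if_pos h1] at hxy
          have hlt : r x < c y := by
            split_ifs at hxy with ha hb hb
            · exact lt_of_digits (h := (i : ℕ) - 1) (by omega) ha hb
            · omega
            · omega
            · omega
          constructor
          · intro hh
            exact absurd hh (not_le.mpr hlt)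
          · intro hh
            exact absurd ⟨h0, h1⟩ hh
        · rw [if_neg h1, if_neg h1] at hxy
          have hlt : c y < r x := by
            split_ifs at hxy with ha hb hb
            · exact lt_of_digits (h := (i : ℕ) - (M + 2)) (by omega) hb ha
            · omega
            · omega
            · omega
          constructor
          · intro _ hh
            exact h1 hh.2
          · intro _
            exact hlt.le
    rw [main x y h, main x' y' h']

end Pool.Agent.PDX.H28
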