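import Pool.Agent.PDX.Stmts

/-!
# PDX, row LEV: the highest binary digit in which two numbers differ
-/

set_option autoImplicit false

namespace Pool.Agent.PDX.H28

theorem lev : LevStmt := by
  intro M
  induction M with
  | zero =>
    intro r c hr hc hrc
    refine ⟨0, le_rfl, ?_, ?_, ?_⟩
    · norm_num at hr hc ⊢
      omega
    · norm_num at hr hc ⊢
      omega
    · norm_num at hr hc ⊢
      omega
  | succ M ih =>
    intro r c hr hc hrc
    by_cases h : r / 2 = c / 2
    · refine ⟨0, Nat.zero_le _, ?_, ?_, ?_⟩
      · simpa using h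
      · simp only [pow_zero, Nat.div_one]
        omega
      · simp only [pow_zero, Nat.div_one]
        omega
    · have h2 : 2 ^ (M + 1 + 1) = 2 ^ (M + 1) * 2 := pow_succ _ _
      obtain ⟨k, hk, h3, h4, h5⟩ := ih (r / 2) (c / 2) (by omega) (by omega) (by omega)
      have hdd : ∀ (n j : ℕ), n / 2 ^ (j + 1) = n / 2 / 2 ^ j := by
        intro n j
        rw [Nat.div_div_eq_div_mul, pow_succ, mul_comm]
      refine ⟨k + 1, by omega, ?_, ?_, ?_⟩
      · rw [hdd r (k + 1), hdd c (k + 1)]
        exact h3
      · rw [hdd r k]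
        exact h4
      · rw [hdd c k]
        exact h5

end Pool.Agent.PDX.H28
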